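import Pool.Agent.H95.CMC.Targets

/-!
# (PVM) the twisted second moment for one field and one conductor
-/

set_option autoImplicit false
set_option linter.unusedVariables false

namespace Pool.Agent.H19.CMC

open MeasureTheory Set Filter NumberField
open scoped Real nonZeroDivisors
open Pool.Agent.H65.CM4 Pool.Agent.H65.CMC Pool.Agent.H95.CMC
open Pool.Agent.H95.CM (lin lin_add lin_smul Nr mem_Nr un T_MEM T_UNI)

theorem pf_PVM (hLF2 : T_LF2) (hORT : T_ORT) (hBES : T_BES) (hMEM : T_MEM) (hUNI : T_UNI)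
    (hRHO : T_RHO) (hLNB : T_LNB) : T_PVM := by
  classical
  intro k K _ _ _ _ _ _ _ _ Φ f m b B y R S F hE hb hS s A a hs
  have hs' := abs_le.mp hs
  have hs0 : 0 < s.re := by linarith [hs'.1]
  have hs2 : s.re < 2 := by linarith [hs'.2]
  have hs1 : s ≠ 1 := by
    rintro rfl
    have := hs'.2
    rw [Complex.one_re] at this
    norm_num at this
  rcases S.eq_empty_or_nonempty with hSe | ⟨ψ0, hψ0⟩
  · rw [hSe, Finset.sum_empty]
    refine mul_nonneg (mul_nonneg (sq_nonneg _) (Finset.sum_nonneg fun c _ => Nat.cast_nonneg _))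
      (Finset.sum_nonneg fun c _ => Finset.sum_nonneg fun Λ _ => sq_nonneg _)
  have hf0 : f ≠ ⊥ := (hS ψ0 hψ0).1.fne
  have hD : (0 : ℝ) < Dl K f := by
    unfold Dl
    have h1 : (0 : ℝ) < |(discr K : ℝ)| :=
      abs_pos.2 (by exact_mod_cast NumberField.discr_ne_zero K)
    have h2 : (0 : ℝ) < (dk k : ℝ) := by
      have : 0 < dk k := Int.natAbs_pos.2 (NumberField.discr_ne_zero k)
      exact_mod_cast this
    have h3 : (0 : ℝ) < nm f := by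
      unfold nm
      have h4 : Ideal.absNorm f ≠ 0 := by
        rw [Ne, Ideal.absNorm_eq_zero_iff]
        exact hf0
      exact_mod_cast Nat.pos_of_ne_zero h4
    exact div_pos (mul_pos h1 (pow_pos h3 2)) (by positivity)
  -- the pairs of a class and a line
  set P : Finset (Σ _ : ClassGroup (𝓞 K), Sl k K) :=
    Finset.univ.sigma fun c => Ln f (R.I c : Ideal (𝓞 K)) with hP
  set χ : (Ideal (𝓞 K) → ℂ) → (Σ _ : ClassGroup (𝓞 K), Sl k K) → ℂ :=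
    fun ψ p => (ψ (R.I p.1))⁻¹ * rh Φ m ψ f (R.I p.1) p.2 with hχ
  set z : (Σ _ : ClassGroup (𝓞 K), Sl k K) → ℂ := fun p => ty Φ m (R.α p.2) *
    Bm s (sm Φ (R.α p.2) (R.β p.2) m) a b A (R.M p.2) (R.Q p.2) with hz
  have key : ∀ ψ ∈ S, (∑ I ∈ Sq b A, a I * lc k ψ I) *
      (GM m s * (Dl K f : ℂ) ^ (s / 2) * F ψ s) = (un k K : ℂ)⁻¹ * ∑ p ∈ P, χ ψ p * z p := by
    intro ψ hψ
    rw [Finset.sum_mul, hP, Finset.sum_sigma]
    have h1 : ∀ I ∈ Sq b A, a I * lc k ψ I * (GM m s * (Dl K f : ℂ) ^ (s / 2) * F ψ s) =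
        (un k K : ℂ)⁻¹ * ∑ c, ∑ Λ ∈ Ln f (R.I c : Ideal (𝓞 K)),
          (ψ (R.I c))⁻¹ * rh Φ m ψ f (R.I c) Λ * (ty Φ m (R.α Λ) * (a I *
          ∑ L ∈ (Ls I).filter (fun L => Dv I L (R.Q Λ)),
            Zm s (sm Φ (R.α Λ) (R.β Λ) m) (R.M Λ ⊓ L) (zx (R.Q Λ)) (zy (R.Q Λ)))) := by
      intro I hI
      obtain ⟨hI0, hsq, hco, -⟩ := ((hMEM k).2 b A I).1 hI
      rw [mul_assoc, hLF2 k K Φ f m ψ (F ψ) b B y R hE (hS ψ hψ).1 (hS ψ hψ).2 hb I hI0 hsq hco s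
        hs0 hs2 hs1, Finset.mul_sum, Finset.mul_sum, Finset.mul_sum]
      refine Finset.sum_congr rfl fun c _ => ?_
      rw [Finset.mul_sum, Finset.mul_sum, Finset.mul_sum, Finset.mul_sum]
      refine Finset.sum_congr rfl fun Λ _ => ?_
      ring
    rw [Finset.sum_congr rfl h1, ← Finset.mul_sum, Finset.sum_comm]
    congr 1
    refine Finset.sum_congr rfl fun c _ => ?_
    rw [Finset.sum_comm]
    refine Finset.sum_congr rfl fun Λ _ => ?_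
    rw [← Finset.mul_sum, ← Finset.mul_sum]
    rfl
  have hnD : ‖(Dl K f : ℂ) ^ (s / 2)‖ ^ 2 = (Dl K f) ^ s.re := by
    rw [Complex.norm_cpow_eq_rpow_re_of_pos hD, ← Real.rpow_natCast, ← Real.rpow_mul hD.le]
    congr 1
    have : (s / 2).re = s.re / 2 := by
      rw [show s / 2 = s / ((2 : ℝ) : ℂ) by push_cast; rfl, Complex.div_ofReal_re]
    rw [this]
    push_cast
    ring
  have hun : ‖(un k K : ℂ)⁻¹‖ = (un k K : ℝ)⁻¹ := by
    rw [norm_inv, Complex.norm_natCast]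
  have h2 : ∀ ψ ∈ S, ‖∑ I ∈ Sq b A, a I * lc k ψ I‖ ^ 2 * ‖F ψ s‖ ^ 2 *
      (‖GM m s‖ ^ 2 * (Dl K f) ^ s.re) =
      ((un k K : ℝ)⁻¹) ^ 2 * ‖∑ p ∈ P, χ ψ p * z p‖ ^ 2 := by
    intro ψ hψ
    rw [← mul_pow ((un k K : ℝ)⁻¹), ← hun, ← norm_mul, ← key ψ hψ, norm_mul, norm_mul,
      norm_mul, mul_pow, mul_pow, mul_pow, hnD]
    ring
  -- the absolute values
  have hχ1 : ∀ ψ ∈ S, ∀ p ∈ P, ‖χ ψ p‖ = 1 := by
    intro ψ hψ p hp
    rw [hP, Finset.mem_sigma] at hp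
    have h3 := (hRHO k K Φ f m ψ (R.I p.1) hE (hS ψ hψ).1 (R.pr p.1)).2.2.2 p.2 hp.2
    have h4 := (hS ψ hψ).1.nrm (R.I p.1) (R.pr p.1)
    simp only [hχ]
    rw [norm_mul, norm_inv, h3, h4, inv_one, one_mul]
  have hort : ∀ ψ ∈ S, ∀ ψ' ∈ S, ψ ≠ ψ' →
      ∑ p ∈ P, χ ψ p * (starRingEnd ℂ) (χ ψ' p) = 0 := by
    intro ψ hψ ψ' hψ' hne
    rw [hP, Finset.sum_sigma]
    exact hORT k K Φ f m ψ ψ' b B y R hE (hS ψ hψ).1 (hS ψ' hψ').1 hne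
  have hzp : ∀ p ∈ P, ‖z p‖ ^ 2 ≤
      ‖Bm s (sm Φ (R.α p.2) (R.β p.2) m) a b A (R.M p.2) (R.Q p.2)‖ ^ 2 := by
    intro p hp
    rw [hP, Finset.mem_sigma] at hp
    have hα : R.α p.2 ≠ 0 := by
      intro h0
      have h4 := (R.ol p.1 p.2 hp.2).inj (1, 0) (by
        unfold lin
        rw [h0]
        simp)
      have h5 : (1 : 𝓞 k) = 0 := congrArg Prod.fst h4
      exact one_ne_zero h5
    have h3 := (hRHO k K Φ f m ψ0 (R.I p.1) hE (hS ψ0 hψ0).1 (R.pr p.1)).1 (R.α p.2) hα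
    simp only [hz]
    rw [norm_mul, h3, one_mul]
  have hBE := hBES _ _ P S χ z hχ1 hort
  calc ∑ ψ ∈ S, ‖∑ I ∈ Sq b A, a I * lc k ψ I‖ ^ 2 * ‖F ψ s‖ ^ 2 *
        (‖GM m s‖ ^ 2 * Dl K f ^ s.re)
      = ((un k K : ℝ)⁻¹) ^ 2 * ∑ ψ ∈ S, ‖∑ p ∈ P, χ ψ p * z p‖ ^ 2 := by
        rw [Finset.mul_sum]
        exact Finset.sum_congr rfl h2
    _ ≤ ((un k K : ℝ)⁻¹) ^ 2 * (P.card * ∑ p ∈ P, ‖z p‖ ^ 2) :=
        mul_le_mul_of_nonneg_left hBE (sq_nonneg _)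
    _ ≤ ((un k K : ℝ)⁻¹) ^ 2 * (P.card * ∑ p ∈ P,
          ‖Bm s (sm Φ (R.α p.2) (R.β p.2) m) a b A (R.M p.2) (R.Q p.2)‖ ^ 2) :=
        mul_le_mul_of_nonneg_left (mul_le_mul_of_nonneg_left (Finset.sum_le_sum hzp)
          (Nat.cast_nonneg _)) (sq_nonneg _)
    _ = _ := by
        rw [hP, Finset.sum_sigma, Finset.card_sigma]
        push_cast
        ring

end Pool.Agent.H19.CMC
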