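import Pool.Agent.H95.CMC.Targets
import Pool.Agent.H72.CM4.CRDX

/-!
# (RDL) every lattice has a reduced pair
-/

set_option autoImplicit false

namespace Pool.Agent.H19.CMC

open MeasureTheory Set Filter NumberField
open scoped Real nonZeroDivisors
open Pool.Agent.H65.CM4 Pool.Agent.H65.CMC Pool.Agent.H95.CMC
open Pool.Agent.H95.CM (lin lin_add lin_smul T_TPE T_NTP T_IXL)
open Pool.Agent.H72.CM4 (prod_cmp prod_const_le prod_le_const rdx_real card_Pl norm_quad)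

theorem pf_RDL (hVBL : T_VBL) (hQFL : T_QFL) (hTPE : T_TPE) (hCVL : T_CVL) (hNTP : T_NTP)
    (hIXL : T_IXL) : T_RDL := by
  intro k _ _ _
  obtain ⟨b1, C, hb1, hC, hV⟩ := hVBL k
  obtain ⟨C3, hC3, hT3⟩ := hTPE k
  have hn0 : 0 < dg k := Module.finrank_pos
  have hcard : Fintype.card (Pl k) = dg k := card_Pl k
  set b2 : ℕ := (⌈C3 ^ dg k⌉₊).factorial with hb2
  have hb2pos : 0 < b2 := Nat.factorial_pos _
  have hdk : 1 ≤ (dk k : ℝ) := by
    have h1 : 0 < dk k := Int.natAbs_pos.mpr (discr_ne_zero k)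
    exact_mod_cast h1
  have hbpos : 0 < b1 ^ 2 * b2 := by positivity
  have hbR : (1 : ℝ) ≤ ((b1 ^ 2 * b2 : ℕ) : ℝ) := by exact_mod_cast hbpos
  refine ⟨b1 ^ 2 * b2, C ^ 2 * C3 ^ 4 * ((b1 ^ 2 * b2 : ℕ) : ℝ) ^ 2 * (dk k : ℝ) ^ 2, hbpos, ?_, ?_⟩
  · exact one_le_mul_of_one_le_of_one_le (one_le_mul_of_one_le_of_one_le
      (one_le_mul_of_one_le_of_one_le (one_le_pow₀ hC) (one_le_pow₀ hC3)) (one_le_pow₀ hbR))
      (one_le_pow₀ hdk)
  intro K _ _ _ _ _ Λ N hix hns hixN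
  have h2 : Module.finrank k K = 2 := Algebra.IsQuadraticExtension.finrank_eq_two k K
  obtain ⟨v, hvI, w, hwI, hind, hgen, hvn, hpqr⟩ := hV K Λ hix
  obtain ⟨hN1, hN2, hN3⟩ := hNTP k K
  obtain ⟨ν, hνm, hν⟩ := hT3 _ hns
  have hnI : 0 < nm (ns Λ) := by
    unfold nm
    have h1 : Ideal.absNorm (ns Λ) ≠ 0 := by
      rw [Ne, Ideal.absNorm_eq_zero_iff]
      exact hns
    exact_mod_cast Nat.pos_of_ne_zero h1
  have hN0 : N ≠ 0 := by
    rintro rfl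
    apply hix
    rw [hixN, mul_zero]
  have hNR : (0 : ℝ) < N := by exact_mod_cast Nat.pos_of_ne_zero hN0
  have hixR : (ixs Λ : ℝ) = nm (ns Λ) * N := by
    rw [hixN]
    unfold nm
    push_cast
    rfl
  set T : ℝ := nm (ns Λ) ^ (1 / (dg k : ℝ)) with hT
  have hTpos : 0 < T := Real.rpow_pos_of_pos hnI _
  have hdgR : (dg k : ℝ) ≠ 0 := by exact_mod_cast hn0.ne'
  have hTn : T ^ dg k = nm (ns Λ) := by
    rw [hT, ← Real.rpow_natCast, ← Real.rpow_mul hnI.le, one_div_mul_cancel hdgR, Real.rpow_one]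
  have hνpos : ∀ j : Pl k, 0 < rv j (ν : k) := fun j => hTpos.trans_le (hν j).1
  have hdiv : ∀ m : ℕ, m * Ideal.absNorm (ns Λ) = Ideal.absNorm (Ideal.span {ν}) →
      m ∣ b2 := by
    intro m hm'
    have h1 : ((Ideal.absNorm (Ideal.span {ν}) : ℕ) : ℝ) = ∏ j : Pl k, rv j (ν : k) := by
      have h3 := hN2 (ν : k)
      rw [Ideal.absNorm_span_singleton]
      have h4 : (((Algebra.norm ℤ ν).natAbs : ℕ) : ℝ) =
          |((Algebra.norm ℚ (ν : k) : ℚ) : ℝ)| := by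
        rw [← Algebra.coe_norm_int, Rat.cast_intCast, ← Int.cast_abs, Nat.cast_natAbs]
      rw [h4, ← h3]
      exact Finset.prod_congr rfl fun j _ => abs_of_pos (hνpos j)
    have h3 : (m : ℝ) * nm (ns Λ) = ∏ j : Pl k, rv j (ν : k) := by
      rw [← h1, ← hm']
      unfold nm
      push_cast
      rfl
    have h4 : ∏ j : Pl k, rv j (ν : k) ≤ (C3 * T) ^ dg k :=
      prod_le_const _ hcard _ _ (fun j => (hνpos j).le) (fun j => (hν j).2)
    rw [← h3, mul_pow, hTn] at h4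
    have h5 : (m : ℝ) ≤ C3 ^ dg k := le_of_mul_le_mul_right h4 hnI
    have h6 : 0 < m := by
      rcases Nat.eq_zero_or_pos m with h | h
      · exfalso
        rw [h, Nat.cast_zero, zero_mul] at h3
        exact (Finset.prod_pos fun j _ => hνpos j).ne h3
      · exact h
    exact Nat.dvd_factorial h6 (Nat.cast_le.mp (h5.trans (Nat.le_ceil _)))
  obtain ⟨Q, hQ⟩ := hQFL k K Λ v w b1 b2 ν hvI hwI hind hb1 hb2pos hgen hνm hνpos hdiv
  refine ⟨(v : K) / b1, (w : K) / b1, (ν : k) / ((b1 ^ 2 * b2 : ℕ) : k),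
    ls ((v : K) / b1) ((w : K) / b1) Λ, Q, hQ, ?_⟩
  obtain ⟨hpos, hcov⟩ := hCVL k K (b1 ^ 2 * b2) Λ _ _ _ _ Q hbpos hix hQ
  set M : La k := ls ((v : K) / b1) ((w : K) / b1) Λ with hM
  set μ : k := (ν : k) / ((b1 ^ 2 * b2 : ℕ) : k) with hμ
  have hb1K : (b1 : K) ≠ 0 := by exact_mod_cast hb1.ne'
  obtain ⟨q, hq⟩ := norm_quad (k := k) (K := K) h2 ((v : K) / b1) ((w : K) / b1)
  have hα : Algebra.norm k ((v : K) / b1) = μ * (Q.1 : k) := by
    have h := hQ.nrm (1, 0)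
    have e1 : lin ((v : K) / b1) ((w : K) / b1) ((1, 0) : V2 k) = (v : K) / b1 := by
      simp [lin]
    have e2 : val Q ((1, 0) : V2 k) = Q.1 := by simp [val]
    rwa [e1, e2] at h
  have hβ : Algebra.norm k ((w : K) / b1) = μ * (Q.2.2 : k) := by
    have h := hQ.nrm (0, 1)
    have e1 : lin ((v : K) / b1) ((w : K) / b1) ((0, 1) : V2 k) = (w : K) / b1 := by
      simp [lin]
    have e2 : val Q ((0, 1) : V2 k) = Q.2.2 := by simp [val]
    rwa [e1, e2] at h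
  have hqe : q = μ * (Q.2.1 : k) := by
    have h := hQ.nrm (1, 1)
    have e1 : lin ((v : K) / b1) ((w : K) / b1) ((1, 1) : V2 k) =
        algebraMap k K 1 * ((v : K) / b1) + algebraMap k K 1 * ((w : K) / b1) := by
      simp [lin]
    have e2 : ((val Q ((1, 1) : V2 k) : 𝓞 k) : k) = (Q.1 : k) + (Q.2.1 : k) + (Q.2.2 : k) := by
      have e3 : val Q ((1, 1) : V2 k) = Q.1 + Q.2.1 + Q.2.2 := by simp [val]
      rw [e3]
      rfl
    rw [e1, e2, hq, hα, hβ] at h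
    linear_combination h
  have hform : ∀ x y : k, Algebra.norm k (algebraMap k K x * (v : K) + algebraMap k K y * (w : K)) =
      ((b1 : k) ^ 2 * (μ * (Q.1 : k))) * x ^ 2 + ((b1 : k) ^ 2 * (μ * (Q.2.1 : k))) * (x * y) +
        ((b1 : k) ^ 2 * (μ * (Q.2.2 : k))) * y ^ 2 := by
    intro x y
    have e1 : algebraMap k K x * (v : K) + algebraMap k K y * (w : K) =
        algebraMap k K (b1 * x) * ((v : K) / b1) + algebraMap k K (b1 * y) * ((w : K) / b1) := by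
      rw [map_mul, map_mul, map_natCast]
      field_simp
    rw [e1, hq, hα, hβ, hqe]
    ring
  have hP := hpqr _ _ _ hform
  have hb1R : (0 : ℝ) < (b1 : ℝ) ^ 2 := by
    have : (0 : ℝ) < b1 := by exact_mod_cast hb1
    positivity
  have hrp : ∀ (i : Pl k) (t : k), rv i ((b1 : k) ^ 2 * (μ * t)) =
      (b1 : ℝ) ^ 2 * (rv i μ * rv i t) := by
    intro i t
    rw [map_mul, map_mul, map_pow, map_natCast]
  have hrd : ∀ i : Pl k, rv i (4 * ((b1 : k) ^ 2 * (μ * (Q.1 : k)) *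
      ((b1 : k) ^ 2 * (μ * (Q.2.2 : k)))) - ((b1 : k) ^ 2 * (μ * (Q.2.1 : k))) ^ 2) =
      (b1 : ℝ) ^ 4 * (rv i μ ^ 2 * rv i (dsc Q : k)) := by
    intro i
    have e0 : ((dsc Q : 𝓞 k) : k) = 4 * ((Q.1 : k) * (Q.2.2 : k)) - (Q.2.1 : k) ^ 2 := by
      have e2 : ((dsc Q : 𝓞 k) : k) =
          algebraMap (𝓞 k) k (4 * (Q.1 * Q.2.2) - Q.2.1 ^ 2) := rfl
      rw [e2, map_sub, map_mul, map_mul, map_pow, map_ofNat]
    have e1 : 4 * ((b1 : k) ^ 2 * (μ * (Q.1 : k)) *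
      ((b1 : k) ^ 2 * (μ * (Q.2.2 : k)))) - ((b1 : k) ^ 2 * (μ * (Q.2.1 : k))) ^ 2 =
        (b1 : k) ^ 4 * (μ ^ 2 * (dsc Q : k)) := by
      rw [e0]
      ring
    rw [e1, map_mul, map_mul, map_pow, map_pow, map_natCast]
  have hμv : ∀ i : Pl k, rv i μ = rv i (ν : k) / ((b1 ^ 2 * b2 : ℕ) : ℝ) := by
    intro i
    rw [hμ, map_div₀, map_natCast]
  have hbR0 : (0 : ℝ) < ((b1 ^ 2 * b2 : ℕ) : ℝ) := by linarith
  have hdK0 : 0 < |(discr K : ℝ)| := by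
    rw [abs_pos]
    exact_mod_cast discr_ne_zero K
  have hdK : 0 < |(discr K : ℝ)| * (N : ℝ) ^ 2 := by positivity
  obtain ⟨hix0, hixle⟩ : ix M ≠ 0 ∧ ix M ≤ (b1 ^ 2 * b2) ^ (2 * dg k) := by
    have h := hIXL k (b1 ^ 2 * b2) M ⊤ hbpos hQ.bM top_ne_bot (top_sup_eq _)
    exact ⟨h.1, h.2.1⟩
  set y : ℝ := (|(discr K : ℝ)| * (N : ℝ) ^ 2) ^ (1 / (2 * dg k : ℝ)) with hy
  have hypos : 0 < y := Real.rpow_pos_of_pos hdK _
  have hyn : y ^ dg k = Real.sqrt (|(discr K : ℝ)| * (N : ℝ) ^ 2) := by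
    rw [hy, ← Real.rpow_natCast, ← Real.rpow_mul hdK.le, Real.sqrt_eq_rpow]
    congr 1
    field_simp
  have hy2n : (y ^ 2) ^ dg k = |(discr K : ℝ)| * (N : ℝ) ^ 2 := by
    rw [← pow_mul, mul_comm, pow_mul, hyn, Real.sq_sqrt hdK.le]
  have hμ0 : ∀ i : Pl k, 0 < rv i μ := hQ.pos
  have hb1R4 : (0 : ℝ) < (b1 : ℝ) ^ 4 := by
    have : (0 : ℝ) < b1 := by exact_mod_cast hb1
    positivity
  obtain ⟨r1, r2, r3, r4, r5⟩ := rdx_real (dg k) hcard hn0.ne' C C3 ((b1 ^ 2 * b2 : ℕ) : ℝ) b1 b2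
    (dk k) T (|(discr K : ℝ)| * (N : ℝ) ^ 2) y (ix M) (fun i : Pl k => rv i μ) (fun i => rv i (Q.1 : k))
    (fun i => rv i (Q.2.1 : k)) (fun i => rv i (dsc Q : k)) hC hC3 (by exact_mod_cast hb1)
    (by exact_mod_cast hb2pos) (by push_cast; ring) hdk hTpos hypos
    (fun i => by
      show T / _ ≤ rv i μ
      rw [hμv i]
      exact div_le_div_of_nonneg_right (hν i).1 hbR0.le)
    (fun i => by
      show rv i μ ≤ _
      rw [hμv i]
      exact div_le_div_of_nonneg_right (hν i).2 hbR0.le)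
    (fun i => (hpos i).1) (fun i => (hpos i).2)
    (fun i j => by
      have h := (hP i j).1
      rw [hrp, hrp] at h
      have h3 : (b1 : ℝ) ^ 2 * (rv i μ * rv i (Q.1 : k)) ≤
          (b1 : ℝ) ^ 2 * (C * (rv j μ * rv j (Q.1 : k))) := h.trans (le_of_eq (by ring))
      exact le_of_mul_le_mul_left h3 hb1R)
    (fun i j => by
      have h := (hP i j).2.1
      rw [hrd, hrd] at h
      have h3 : (b1 : ℝ) ^ 4 * (rv i μ ^ 2 * rv i (dsc Q : k)) ≤
          (b1 : ℝ) ^ 4 * (C * (rv j μ ^ 2 * rv j (dsc Q : k))) := h.trans (le_of_eq (by ring))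
      exact le_of_mul_le_mul_left h3 hb1R4)
    (fun i => by
      have h := (hP i i).2.2
      rw [hrp, hrp, abs_mul, abs_mul, abs_of_pos hb1R, abs_of_pos (hμ0 i)] at h
      have h3 : (b1 : ℝ) ^ 2 * (rv i μ * |rv i (Q.2.1 : k)|) ≤
          (b1 : ℝ) ^ 2 * (C * (rv i μ * rv i (Q.1 : k))) := h.trans (le_of_eq (by ring))
      exact le_of_mul_le_mul_left h3 hb1R)
    (by
      have h := hform 1 0
      have e1 : algebraMap k K 1 * (v : K) + algebraMap k K 0 * (w : K) = (v : K) := by simp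
      have e2 : (b1 : k) ^ 2 * (μ * (Q.1 : k)) * 1 ^ 2 + (b1 : k) ^ 2 * (μ * (Q.2.1 : k)) * (1 * 0) +
        (b1 : k) ^ 2 * (μ * (Q.2.2 : k)) * 0 ^ 2 = (b1 : k) ^ 2 * (μ * (Q.1 : k)) := by ring
      rw [e1, e2] at h
      have h3 := hN3 (v : K)
      rw [h] at h3
      have e3 : ∏ i : Pl k, ((b1 : ℝ) ^ 2 * (rv i μ * rv i (Q.1 : k))) =
          ∏ i : Pl k, rv i ((b1 : k) ^ 2 * (μ * (Q.1 : k))) :=
        Finset.prod_congr rfl fun i _ => (hrp i _).symm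
      rw [e3, ← h3, hyn, hTn, Real.sqrt_mul hdK0.le, Real.sqrt_sq hNR.le]
      rw [hixR] at hvn
      exact hvn.trans (le_of_eq (by ring)))
    (by
      rw [hTn]
      rw [hixR] at hcov
      rw [← hcov]
      ring)
    (by exact_mod_cast Nat.one_le_iff_ne_zero.mpr hix0)
    (by exact_mod_cast hixle)
    hy2n (Classical.arbitrary (Pl k))
  exact ⟨hQ.bM, ⟨_, r1, r2, r3⟩, r4, r5⟩

end Pool.Agent.H19.CMC
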