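import Pool.Agent.H23.CMC.Targets
import Pool.Agent.H58.CM4.MOT

/-!
# MOT: the second moment with partial sums of any length, stage 2
-/

set_option autoImplicit false

open NumberField MeasureTheory Set Filter Complex
open scoped nonZeroDivisors Real

namespace Pool.Agent.H19.CMC

open Pool.Agent.H23.CMC
open Pool.Agent.H65.CM4 (Sq nm dg Pl rv)
open Pool.Agent.H65.CMC (Emb ty PrTo IsHk ms IsLk gg GM cG Km Idx cdc Fmc lc)
open Pool.Agent.H23.CM4 (nJ Jd Nr wB)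
open Pool.Agent.H23.LC (HG ag)
open Pool.Agent.H58.CM4 (wB_le_one wB_nonneg wB_small)

theorem pf_MOT (hMOS : T_MOSc) (hSM2 : T_SM2c) (hSPT : T_SPTc) (hFX : T_FXc) (hDCX : T_DCX) :
    T_MOTc := by
  intro k _ _ _ ε hε
  obtain ⟨κ1, hκ10, hκ11, δ, hδ0, hδ1, C1, j1, hC1, h1⟩ := hMOS k ε hε
  obtain ⟨κ2, hκ20, hκ21, C2, j2, hC2, h2⟩ := hSM2 k ε hε
  obtain ⟨C3, hC3, h3⟩ := hSPT (2 * dg k)
  set B := ⌈8 / δ⌉₊ with hB
  have hBd : 8 / δ ≤ (B : ℝ) := Nat.le_ceil _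
  refine ⟨min κ1 κ2, lt_min hκ10 hκ20, (min_le_left _ _).trans hκ11, B, C1 + C3 ^ 2 * C2,
    j1 + j2, by positivity, ?_⟩
  intro s X x ι K _ _ _ Φ S f m F hs hX hx hF
  have hs1 : |s.re - 1 / 2| ≤ κ1 := hs.trans (min_le_left _ _)
  have hs2 : |s.re - 1 / 2| ≤ κ2 := hs.trans (min_le_right _ _)
  obtain ⟨T, hT⟩ : ∃ T : ℝ, T = Tc m s := ⟨_, rfl⟩
  have hT1 : 1 ≤ T := by
    rw [hT]
    unfold Tc ms
    have h4 := abs_nonneg s.im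
    have h5 : 0 ≤ ∑ v : Pl k, |(m v : ℝ)| := Finset.sum_nonneg fun v _ => abs_nonneg _
    linarith
  have hX0 : 0 < X := by linarith
  have hx0 : 0 < x := by linarith
  have hP : 0 ≤ X ^ (3 / 2 + ε) := Real.rpow_nonneg hX0.le _
  have hQ : 1 ≤ x ^ (1 + ε) := Real.one_le_rpow hx (by linarith)
  have hnn : 0 ≤ ∑ p ∈ S, ‖Sc (cf p.2) x‖ ^ 2 * ‖F p s‖ ^ 2 :=
    Finset.sum_nonneg (fun p _ => by positivity)
  have hpow1 : T ^ j1 ≤ T ^ (j1 + j2) := pow_le_pow_right₀ hT1 (by omega)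
  have hpow2 : T ^ j2 ≤ T ^ (j1 + j2) := pow_le_pow_right₀ hT1 (by omega)
  have hT0 : 0 < T := by linarith
  rw [← hT]
  by_cases hcase : x ≤ X ^ ((1 + δ) / 2)
  · have b1 := h1 s X x ι K Φ S f m F hs1 hX hx hcase hF
    rw [← hT] at b1
    calc (∑ p ∈ S, ‖Sc (cf p.2) x‖ ^ 2 * ‖F p s‖ ^ 2) * wB B X x
        ≤ (∑ p ∈ S, ‖Sc (cf p.2) x‖ ^ 2 * ‖F p s‖ ^ 2) * 1 :=
          mul_le_mul_of_nonneg_left (wB_le_one B X x hx0.le) hnn
      _ ≤ C1 * T ^ j1 * X ^ (3 / 2 + ε) * x ^ (1 + ε) := by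
          rw [mul_one]
          exact b1
      _ ≤ (C1 + C3 ^ 2 * C2) * T ^ (j1 + j2) * X ^ (3 / 2 + ε) * x ^ (1 + ε) := by
          have : C1 ≤ C1 + C3 ^ 2 * C2 := by
            have : 0 ≤ C3 ^ 2 * C2 := by positivity
            linarith
          gcongr
  · have hxX : X ^ ((1 + δ) / 2) < x := not_le.mp hcase
    have b2 := h2 s X ι K Φ S f m F hs2 hX hF
    rw [← hT] at b2
    have hFp := (hFX k ι K Φ S f (fun _ => m) F _ _ hF).1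
    have b3 : ∑ p ∈ S, ‖Sc (cf p.2) x‖ ^ 2 * ‖F p s‖ ^ 2 ≤
        (C3 * x ^ 2) ^ 2 * ∑ p ∈ S, ‖F p s‖ ^ 2 := by
      rw [Finset.mul_sum]
      refine Finset.sum_le_sum fun p hp => ?_
      have hrk := (hDCX k (K p.1) (hF.rk p hp)).2.1
      have hle := (hFp p hp).2.2.2.2.2.2
      have a1 := (h3 (K p.1) hrk (cf p.2) (fun J => hle _)).2.2 x hx
      have a2 : ‖Sc (cf p.2) x‖ ^ 2 ≤ (C3 * x ^ 2) ^ 2 :=
        pow_le_pow_left₀ (norm_nonneg _) a1 2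
      exact mul_le_mul_of_nonneg_right a2 (by positivity)
    have b4 := wB_small δ X x hδ0 hδ1 hX hx hxX B hBd
    have hw := wB_nonneg B X x hx0.le
    calc (∑ p ∈ S, ‖Sc (cf p.2) x‖ ^ 2 * ‖F p s‖ ^ 2) * wB B X x
        ≤ ((C3 * x ^ 2) ^ 2 * ∑ p ∈ S, ‖F p s‖ ^ 2) * wB B X x :=
          mul_le_mul_of_nonneg_right b3 hw
      _ ≤ ((C3 * x ^ 2) ^ 2 * (C2 * T ^ j2 * X ^ (3 / 2 + ε))) * wB B X x := by
          refine mul_le_mul_of_nonneg_right ?_ hw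
          exact mul_le_mul_of_nonneg_left b2 (by positivity)
      _ = C3 ^ 2 * C2 * T ^ j2 * X ^ (3 / 2 + ε) * (wB B X x * x ^ 4) := by ring
      _ ≤ C3 ^ 2 * C2 * T ^ j2 * X ^ (3 / 2 + ε) * 1 := by
          refine mul_le_mul_of_nonneg_left b4 (by positivity)
      _ ≤ (C1 + C3 ^ 2 * C2) * T ^ (j1 + j2) * X ^ (3 / 2 + ε) * x ^ (1 + ε) := by
          have : C3 ^ 2 * C2 ≤ C1 + C3 ^ 2 * C2 := by linarith
          gcongr

end Pool.Agent.H19.CMC
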